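import Pool.Agent.Helper43.Hw.Goals

/-! # H6 (before the zone) -/

set_option autoImplicit false

namespace Pool.Agent.Helper43.Hw.PkH6

open Finset
open Pool.Agent.Helper43.Gm (st mv nn Run Pri)
open Pool.Agent.Helper43.Hw

theorem kmono {μ R N : ℕ} {κ x : ℕ → ℕ} (hP : Play μ R N κ x) {a b : ℕ} (hab : a ≤ b)
    (hb : b < R) : κ a ≤ κ b := by
  induction b, hab using Nat.le_induction with
  | base => exact le_rfl
  | succ m hm ih => exact (ih (by omega)).trans (hP.mono m hb)

theorem va_self {μ R : ℕ} (κ x : ℕ → ℕ) (y : ℕ) : va μ R κ x (κ y) y = x y := by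
  unfold va nn
  simp

theorem va_gt {μ R : ℕ} {κ x : ℕ → ℕ} {c y : ℕ} (h : κ y < c) : va μ R κ x c y = na μ R y := by
  unfold va
  rw [if_pos h]

theorem va_le {μ R : ℕ} {κ x : ℕ → ℕ} {c y : ℕ} (h : c < κ y) : va μ R κ x c y ≤ μ := by
  unfold va nn
  rw [if_neg (by omega), if_neg (by omega), if_neg (by omega)]
  exact (Nat.sub_le _ _).trans (Nat.sub_le _ _)

theorem count {μ R N : ℕ} {κ x : ℕ → ℕ} {y m : ℕ} (hN : κ y ≤ N) {A : Finset ℕ}
    (hA : A ⊆ range (κ y)) (h : ∀ c ∈ A, m ≤ 2 * va μ R κ x c y) :
    m * A.card ≤ 2 * lz μ R N κ x y := by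
  have h1 := Finset.card_nsmul_le_sum A (fun c => 2 * va μ R κ x c y) m h
  rw [smul_eq_mul, ← Finset.mul_sum] at h1
  have h2 : ∑ c ∈ A, va μ R κ x c y ≤ lz μ R N κ x y := by
    unfold lz
    exact Finset.sum_le_sum_of_subset (hA.trans (range_subset_range.2 hN))
  calc m * A.card = A.card * m := mul_comm _ _
    _ ≤ 2 * ∑ c ∈ A, va μ R κ x c y := h1
    _ ≤ 2 * lz μ R N κ x y := by omega

/-- the load of a row in which there are no natural values -/
theorem lz_le {μ R N : ℕ} {κ x : ℕ → ℕ} {y : ℕ} (hN : κ y < N) (hna : na μ R y = 0) :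
    lz μ R N κ x y ≤ μ * oo μ R κ x y + x y := by
  unfold lz
  rw [Finset.range_eq_Ico, ← Finset.sum_Ico_consecutive _ (Nat.zero_le (κ y)) hN.le,
    Finset.sum_eq_sum_Ico_succ_bot hN, va_self]
  have h1 : ∑ c ∈ Ico (κ y + 1) N, va μ R κ x c y = 0 := by
    refine Finset.sum_eq_zero fun c hc => ?_
    rw [mem_Ico] at hc
    rw [va_gt (by omega), hna]
  have h2 : ∑ c ∈ Ico 0 (κ y), va μ R κ x c y ≤ μ * oo μ R κ x y := by
    rw [← Finset.range_eq_Ico]
    have h3 : ∑ c ∈ (range (κ y)).filter (fun c => 0 < va μ R κ x c y), va μ R κ x c y =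
        ∑ c ∈ range (κ y), va μ R κ x c y := by
      refine Finset.sum_filter_of_ne fun c _ hc => Nat.pos_of_ne_zero hc
    rw [← h3]
    have h4 := Finset.sum_le_card_nsmul ((range (κ y)).filter (fun c => 0 < va μ R κ x c y))
      (fun c => va μ R κ x c y) μ (fun c hc => by
        rw [mem_filter, mem_range] at hc
        exact va_le hc.1)
    rw [smul_eq_mul] at h4
    unfold oo
    rw [mul_comm]
    exact h4
  omega

theorem goalH6 (h1 : GoalH1) (h4 : GoalH4) : GoalH6 := by
  intro μ R N κ x Y hμ hR hP hE
  obtain ⟨h1a, -, h1c, -, -, h1f, -⟩ := h1 μ R N κ x hμ hR hP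
  have h4' := h4 μ R N κ x hμ hR hP
  obtain ⟨hYR, hYN, hYl⟩ := hE
  have hkN : ∀ y ≤ Y, κ y < N := fun y hy => lt_of_le_of_lt (kmono hP hy hYR) hYN
  -- (a)
  have ha : ∀ y ≤ Y, μ * oo μ R κ x y ≤ 4 * (y + 1) + μ := by
    intro y hy
    have hyR : y < R := lt_of_le_of_lt hy hYR
    set A := (range (κ y)).filter (fun c => 0 < va μ R κ x c y) with hA
    have hAoo : oo μ R κ x y = A.card := rfl
    set A1 := A.filter (fun c => μ ≤ 2 * (ac R κ x c + μ - y)) with hA1
    set A2 := A.filter (fun c => ¬ μ ≤ 2 * (ac R κ x c + μ - y)) with hA2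
    have hcard : A1.card + A2.card = A.card := Finset.card_filter_add_card_filter_not _
    -- first part
    have e1 : μ * A1.card ≤ 2 * (y + 1) := by
      have := count (μ := μ) (R := R) (N := N) (κ := κ) (x := x) (y := y) (m := μ) (hkN y hy).le
        (A := A1) ((filter_subset _ _).trans (filter_subset _ _)) (fun c hc => by
          rw [hA1, mem_filter, hA, mem_filter, mem_range] at hc
          have := (h1f y hyR c hc.1.1).2.2.1
          omega)
      rw [hYl y hy] at this
      exact this
    -- second part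
    have e2 : μ * A2.card ≤ 2 * (y + 1) + μ := by
      rcases A2.eq_empty_or_nonempty with he | ⟨c0, hc0⟩
      · rw [he, card_empty]; omega
      set y' := y - (μ + 1) / 2 with hy'
      have hprop : ∀ c ∈ A2, c < κ y ∧ y < ac R κ x c + μ ∧ ac R κ x c ≤ y' ∧
          y' + (μ + 1) / 2 = y := by
        intro c hc
        rw [hA2, mem_filter, hA, mem_filter, mem_range] at hc
        have g1 := (h1f y hyR c hc.1.1).2.2.2.1 hc.1.2
        have g2 := hc.2
        refine ⟨hc.1.1, g1, ?_, ?_⟩ <;> omega
      have hy'Y : y' ≤ Y := by omega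
      have hy'R : y' < R := by omega
      have hsub : A2.filter (fun c => c < κ y') ⊆ range (κ y') := by
        intro c hc
        rw [mem_filter] at hc
        exact mem_range.2 hc.2
      have e3 : μ * (A2.filter (fun c => c < κ y')).card ≤ 2 * (y' + 1) := by
        have := count (μ := μ) (R := R) (N := N) (κ := κ) (x := x) (y := y') (m := μ)
          (hkN y' hy'Y).le hsub (fun c hc => by
            rw [mem_filter] at hc
            obtain ⟨g1, g2, g3, g4⟩ := hprop c hc.1
            have := (h1f y' hy'R c hc.2).2.2.1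
            omega)
        rw [hYl y' hy'Y] at this
        exact this
      have e4 : A2 ⊆ A2.filter (fun c => c < κ y') ∪ {κ y'} := by
        intro c hc
        obtain ⟨g1, g2, g3, g4⟩ := hprop c hc
        rw [mem_union, mem_filter, mem_singleton]
        have g5 := (h1a c y' hy'R).2
        have g6 : ¬ aa κ x y' ≤ c := fun h => by
          have := g5.1 h
          omega
        unfold aa at g6
        by_cases hlt : c < κ y'
        · exact Or.inl ⟨hc, hlt⟩
        · right
          split_ifs at g6 <;> omega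
      have e5 : A2.card ≤ (A2.filter (fun c => c < κ y')).card + 1 := by
        refine (card_le_card e4).trans ((card_union_le _ _).trans ?_)
        rw [card_singleton]
      calc μ * A2.card ≤ μ * ((A2.filter (fun c => c < κ y')).card + 1) :=
            Nat.mul_le_mul_left _ e5
        _ = μ * (A2.filter (fun c => c < κ y')).card + μ := by ring
        _ ≤ 2 * (y' + 1) + μ := by omega
        _ ≤ 2 * (y + 1) + μ := by omega
    rw [hAoo, ← hcard, mul_add]
    omega
  -- (b)
  have hb : ∀ y ≤ Y, y + 1 + μ ≤ R → y + 1 < μ * (oo μ R κ x y + 1) := by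
    intro y hy hyR
    have g1 : na μ R y = 0 := by unfold na; omega
    have g2 := lz_le (μ := μ) (R := R) (N := N) (κ := κ) (x := x) (hkN y hy) g1
    rw [hYl y hy] at g2
    have g3 := hP.lt y (by omega)
    rw [mul_add, mul_one]
    omega
  -- (c)
  have hc : ∀ y < Y, y + 2 + μ ≤ R →
      κ (y + 1) * μ + x (y + 1) = κ y * μ + x y + 1 + oo μ R κ x y + sk μ κ x y := by
    intro y hy hyR
    have g1 : na μ R y = 0 := by unfold na; omega
    have g2 : na μ R (y + 1) = 0 := by unfold na; omega
    have g3 := (h4' y (by omega)).1 (hkN y hy.le) (hkN (y + 1) hy)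
    rw [g1, g2, hYl y hy.le, hYl (y + 1) hy, mul_zero, mul_zero, Nat.sub_mul] at g3
    have g4 : κ y * μ ≤ κ (y + 1) * μ := Nat.mul_le_mul_right _ (hP.mono y (by omega))
    omega
  refine ⟨ha, hb, hc, ?_, ?_⟩
  · -- (d)
    intro l z hRz hzl hzY hl
    have hl1 : 1 ≤ l := by
      rcases Nat.eq_zero_or_pos l with h | h
      · rw [h, zero_mul] at hl
        have : 0 < μ ^ 2 := pow_pos (by omega) 2
        omega
      · exact h
    have key : ∀ j ≤ l, μ * (κ z * μ + x z) + j * (z + 2) ≤ μ * (κ (z + j) * μ + x (z + j)) := by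
      intro j
      induction j with
      | zero => intro _; simp
      | succ j ih =>
        intro hj
        have g1 := ih (by omega)
        have g2 := hc (z + j) (by omega) (by omega)
        have g3 := hb (z + j) (by omega) (by omega)
        rw [show z + (j + 1) = z + j + 1 by ring, g2]
        have g4 : μ * (κ (z + j) * μ + x (z + j) + 1 + oo μ R κ x (z + j) + sk μ κ x (z + j)) =
            μ * (κ (z + j) * μ + x (z + j)) + μ * (oo μ R κ x (z + j) + 1) +
            μ * sk μ κ x (z + j) := by ring
        rw [g4, Nat.succ_mul]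
        omega
    have g1 := key l le_rfl
    have g2 := hP.lt (z + l) (by omega)
    by_contra hcon
    have g3 : κ (z + l) * μ ≤ κ z * μ := Nat.mul_le_mul_right _ (by omega)
    have g4 : μ * (κ (z + l) * μ + x (z + l)) ≤ μ * (κ z * μ + x z) + μ * μ := by
      rw [← mul_add]
      exact Nat.mul_le_mul_left _ (by omega)
    have g5 : l * (z + 2) ≤ μ * μ := by omega
    have g6 : l * R + 2 * l ≤ 2 * (l * (z + 2)) := by
      calc l * R + 2 * l = l * (R + 2) := by ring
        _ ≤ l * (2 * (z + 2)) := Nat.mul_le_mul_left _ (by omega)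
        _ = 2 * (l * (z + 2)) := by ring
    have g7 : 2 * μ ^ 2 = 2 * (μ * μ) := by ring
    omega
  · -- (e)
    intro hRY h3 X hX
    set J := R - 1 - μ with hJ
    set z := J - X with hz
    have hzJ : z + X = J := by omega
    have hμz : μ ≤ z := by omega
    have hJY : J ≤ Y := by omega
    have hJR : J + 1 + μ = R := by omega
    -- the number of starts
    have e1 : np μ R N κ x X ≤ aa κ x J - aa κ x z := by
      have g0 : ((range N).filter (fun c => R - 1 - μ < ac R κ x c + X ∧
          ac R κ x c ≤ R - 1 - μ)).card ≤ (Ico (aa κ x z) (aa κ x J)).card := by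
        refine card_le_card fun c hc => ?_
        rw [mem_filter, mem_range] at hc
        rw [mem_Ico]
        have g1 := (h1a c z (by omega)).2
        have g2 := (h1a c J (by omega)).2
        refine ⟨g1.2 (by omega), ?_⟩
        by_contra hcon
        have := g2.1 (by omega)
        omega
      rw [Nat.card_Ico] at g0
      exact g0
    have e2 : μ * aa κ x J ≤ κ J * μ + x J + μ := by
      unfold aa
      split_ifs
      · rw [mul_add, mul_one, mul_comm]; omega
      · rw [add_zero, mul_comm]; omega
    have e3 : κ z * μ + x z ≤ μ * aa κ x z := by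
      have g1 := hP.lt z (by omega)
      unfold aa
      split_ifs with h
      · rw [mul_add, mul_one, mul_comm μ]; omega
      · rw [add_zero, mul_comm μ]; omega
    -- the growth
    have e4 : ∀ j ≤ X, κ (z + j) * μ + x (z + j) = κ z * μ + x z + j +
        ∑ i ∈ range j, oo μ R κ x (z + i) + ∑ i ∈ range j, sk μ κ x (z + i) := by
      intro j
      induction j with
      | zero => intro _; simp
      | succ j ih =>
        intro hj
        have g1 := ih (by omega)
        have g2 := hc (z + j) (by omega) (by omega)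
        rw [show z + (j + 1) = z + j + 1 by ring, g2, g1, Finset.sum_range_succ,
          Finset.sum_range_succ]
        ring
    have e5 := e4 X le_rfl
    rw [hzJ] at e5
    have e6 : μ * ∑ i ∈ range X, oo μ R κ x (z + i) ≤ X * (4 * R + μ) := by
      rw [Finset.mul_sum]
      have := Finset.sum_le_card_nsmul (range X) (fun i => μ * oo μ R κ x (z + i)) (4 * R + μ)
        (fun i hi => by
          rw [mem_range] at hi
          have := ha (z + i) (by omega)
          omega)
      rw [card_range, smul_eq_mul] at this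
      exact this
    have e7 : ∑ i ∈ range X, sk μ κ x (z + i) ≤ X + μ := by
      unfold sk
      have g1 : ∑ i ∈ range X, ((range (z + i)).filter (fun t => κ t < κ (z + i) ∧ 0 < x t ∧
          μ + t = x t + (z + i))).card = ((range X).biUnion fun i =>
          (range (z + i)).filter (fun t => κ t < κ (z + i) ∧ 0 < x t ∧
            μ + t = x t + (z + i))).card := by
        refine (Finset.card_biUnion fun i _ j _ hij => ?_).symm
        show Disjoint _ _
        rw [Finset.disjoint_left]
        intro t ht ht'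
        rw [mem_filter] at ht ht'
        omega
      rw [g1]
      have g2 : ((range X).biUnion fun i =>
          (range (z + i)).filter (fun t => κ t < κ (z + i) ∧ 0 < x t ∧
            μ + t = x t + (z + i))) ⊆ Ico (z - μ) J := by
        intro t ht
        rw [mem_biUnion] at ht
        obtain ⟨i, hi, ht⟩ := ht
        rw [mem_filter, mem_range] at ht
        rw [mem_range] at hi
        rw [mem_Ico]
        omega
      refine (card_le_card g2).trans ?_
      rw [Nat.card_Ico]
      omega
    have e8 : μ * np μ R N κ x X ≤ (κ J * μ + x J) - (κ z * μ + x z) + μ := by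
      have g1 : μ * np μ R N κ x X ≤ μ * aa κ x J - μ * aa κ x z := by
        rw [← Nat.mul_sub]
        exact Nat.mul_le_mul_left _ e1
      omega
    have e9 : (κ J * μ + x J) - (κ z * μ + x z) = X + ∑ i ∈ range X, oo μ R κ x (z + i) +
        ∑ i ∈ range X, sk μ κ x (z + i) := by omega
    rw [e9] at e8
    calc μ ^ 2 * np μ R N κ x X = μ * (μ * np μ R N κ x X) := by ring
      _ ≤ μ * (X + ∑ i ∈ range X, oo μ R κ x (z + i) + ∑ i ∈ range X, sk μ κ x (z + i) + μ) :=
          Nat.mul_le_mul_left _ e8
      _ = μ * X + μ * ∑ i ∈ range X, oo μ R κ x (z + i) +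
          μ * ∑ i ∈ range X, sk μ κ x (z + i) + μ * μ := by ring
      _ ≤ μ * X + X * (4 * R + μ) + μ * (X + μ) + μ * μ := by
          have := Nat.mul_le_mul_left μ e7
          omega
      _ = X * (3 * μ + 4 * R) + 2 * μ ^ 2 := by ring
      _ ≤ X * (R + 4 * R) + 2 * μ ^ 2 := by
          have : X * (3 * μ + 4 * R) ≤ X * (R + 4 * R) := Nat.mul_le_mul_left _ (by omega)
          omega
      _ = 5 * X * R + 2 * μ ^ 2 := by ring
      _ ≤ 3 * μ ^ 2 + 5 * X * R := by
          have : 0 ≤ μ ^ 2 := Nat.zero_le _
          omega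

end Pool.Agent.Helper43.Hw.PkH6
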